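import Pool.Agent.Helper76.CV.Goals

/-!
# Project CV (MP_eec6f5_gt), packet JET3: second derivatives along curves (chain rule)
-/

set_option autoImplicit false

open scoped ContDiff Topology
open Filter

namespace Pool.Agent.Helper46.CV.JET3

open Pool.Agent.Helper76.CV

lemma cd1 {F : Type*} [NormedAddCommGroup F] [NormedSpace ℝ F] (f : ℝ → F) (u : ℝ)
    (h : ContDiffAt ℝ 2 f u) : ContDiffAt ℝ 1 (deriv f) u := by
  have h1 : ContDiffAt ℝ 1 (fderiv ℝ f) u := h.fderiv_right (by norm_num)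
  have h2 : ContDiffAt ℝ 1 (fun x => fderiv ℝ f x 1) u := h1.clm_apply contDiffAt_const
  exact h2

lemma ev {F : Type*} [NormedAddCommGroup F] [NormedSpace ℝ F] (f : ℝ → F) (u : ℝ)
    (h : ContDiffAt ℝ 2 f u) : ∀ᶠ u' in 𝓝 u, DifferentiableAt ℝ f u' :=
  (h.eventually (by simp)).mono fun _ hx => hx.differentiableAt (by norm_num)

lemma hd (r : ℕ) (D : Dat r) (T : ℝ → ℝ) (Y : ℝ → E (r + 3)) (u : ℝ)
    (hC : ContDiff ℝ ∞ D.C) (hT : DifferentiableAt ℝ T u) (hY : DifferentiableAt ℝ Y u) :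
    HasDerivAt (fun u' => U D (T u', Y u'))
      (-(2 * inner ℝ (Y u) (deriv Y u)) - deriv D.C (T u) * deriv T u) u := by
  have h1 : HasDerivAt (fun u' => ‖Y u'‖ ^ 2) (2 * inner ℝ (Y u) (deriv Y u)) u :=
    hY.hasDerivAt.norm_sq
  have h2 : HasDerivAt (fun u' => D.C (T u')) (deriv D.C (T u) * deriv T u) u :=
    ((hC.differentiable (by simp)).differentiableAt.hasDerivAt (x := T u)).comp u hT.hasDerivAt
  have h3 := (h1.const_sub 1).sub h2
  exact h3

theorem t : Pool.Agent.Helper76.CV.JET3 := by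
  intro r D T Y u hC hT hY
  have hCd : ContDiff ℝ ∞ (deriv D.C) := hC.deriv' (n := ∞)
  refine ⟨?_, ?_, ?_⟩
  · have h1 : ContDiffAt ℝ 2 (fun u' => ‖Y u'‖ ^ 2) u := hY.norm_sq ℝ
    have h2 : ContDiffAt ℝ 2 (fun u' => D.C (T u')) u :=
      (hC.contDiffAt.of_le (by norm_cast)).comp u hT
    exact (contDiffAt_const.sub h1).sub h2
  · exact (hd r D T Y u hC (hT.differentiableAt (by norm_num))
      (hY.differentiableAt (by norm_num))).deriv
  · have he : deriv (fun u' => U D (T u', Y u')) =ᶠ[𝓝 u]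
        fun u' => -(2 * inner ℝ (Y u') (deriv Y u')) - deriv D.C (T u') * deriv T u' := by
      filter_upwards [ev T u hT, ev Y u hY] with x h1 h2
      exact (hd r D T Y x hC h1 h2).deriv
    rw [he.deriv_eq]
    have hY1 : HasDerivAt Y (deriv Y u) u := (hY.differentiableAt (by norm_num)).hasDerivAt
    have hT1 : HasDerivAt T (deriv T u) u := (hT.differentiableAt (by norm_num)).hasDerivAt
    have hY2 : HasDerivAt (deriv Y) (deriv (deriv Y) u) u :=
      ((cd1 Y u hY).differentiableAt (by norm_num)).hasDerivAt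
    have hT2 : HasDerivAt (deriv T) (deriv (deriv T) u) u :=
      ((cd1 T u hT).differentiableAt (by norm_num)).hasDerivAt
    have hC2 : HasDerivAt (fun u' => deriv D.C (T u')) (deriv (deriv D.C) (T u) * deriv T u) u :=
      ((hCd.differentiable (by simp)).differentiableAt.hasDerivAt (x := T u)).comp u hT1
    have h1 := ((hY1.inner ℝ hY2).const_mul 2).neg.sub (hC2.mul hT2)
    have h2 := h1.deriv
    refine Eq.trans h2 ?_
    rw [real_inner_self_eq_norm_sq]
    ring

end Pool.Agent.Helper46.CV.JET3
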